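import Pool.Agent.Q183.FAR.D

/-!
# Orientable fillings of the circle have area at least `1.901 π` plus the area of the far part

Let `M` be a Riemannian surface which fills the circle of length `2π` without shortcuts. The far part
of `M` is the set of all points at distance at least `π / 2` from the circle. If `M` is compact and
orientable (of any genus), then the area of `M` is at least `1.901 π` plus the area of the far part;
in particular the inequality `Area M ≥ 2π` holds if the far part has area at least `0.099 π`.

More generally, `M` need not be compact or orientable and may have further boundary components far
away: the bound holds for all compact orientable pieces of `M` which contain the circle and whose
boundary points outside the circle belong to the far part. So the part of `M` at distance less than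
`π / 2` from the circle has area at least `1.901 π`, if it is contained in such a piece.
-/

set_option autoImplicit false

namespace Pool.Agent.Results.MP_ecf18f_gt.FarPart

open Real Pool.Agent.Q183.FAR

theorem result {M : Type} [MetricSpace M] (S : Piece M) (hS : S.NoShortcut) :
    1.901 * π + S.farArea ≤ S.area :=
  far_bound S hS

end Pool.Agent.Results.MP_ecf18f_gt.FarPart
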