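import Pool.Agent.Q183.MDL.F

/-!
# The integral of the modality of the distance functions is at least `2π`

Let `M` be a compact oriented Riemannian surface, of any genus, whose boundary is the circle of
length `2π`, and let `f θ`, for `θ` in the circle, be `1`-Lipschitz functions on `M` with
`f θ s = dist θ s` for all points `s` of the circle. (If `M` fills the circle isometrically, the
distance functions `f θ q = dist θ q` are such a family.) The modality `κ q` of the family at the
point `q` is the least number `k`, possibly infinite, such that for all `q'` sufficiently near `q`
the function `θ ↦ f θ q' - f θ q` on the circle has at most `k` waves at each level. Then the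
integral of `κ` over `M` is at least `2π`.

In particular the area of `M` is at least `2π` if `κ ≤ 1` almost everywhere, that is, if for nearby
points the differences of the distances to the points of the circle are unimodal functions on the
circle. For discs this is the case, because shortest paths cannot cross twice.
-/

set_option autoImplicit false

namespace Pool.Agent.Results.MP_ecf18f_gt.ModalityIntegral

open Real Pool.Agent.H115R3.Filling Pool.Agent.Q183.MDL

theorem result {M : Type} [MetricSpace M] (S : OrientedSurface M)
    (f : AddCircle (2 * π) → M → ℝ) (hf : ∀ θ x y, |f θ x - f θ y| ≤ dist x y)
    (hb : ∀ θ s, f θ (S.boundary s) = dist θ s) :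
    ENNReal.ofReal (2 * π) ≤ modalityIntegral S f :=
  main S f hf hb

end Pool.Agent.Results.MP_ecf18f_gt.ModalityIntegral
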