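import Pool.Agent.Q183.CAP.I

/-!
# Fillings of the circle which are round outside a ball

Let `H` be the closed unit hemisphere with pole `n`, and let `B` be a closed ball of radius `R` in `H`
with `sin² R ≤ 1 / 3`, with any centre `c`. Let `K` be a compact oriented Riemannian surface, of any
genus, whose boundary is a circle, and glue `K` to the round piece `H ∖ int B` along the boundary circle
of `B`. If the boundary circle of `H` has no shortcuts in the surface `M` so obtained (`M` fills the
circle of length `2π` isometrically), then the area of `K` is at least the area `2π (1 - cos R)` of `B`,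
so that `M` has area at least `2π`.

The data are: a metric space `M` with a `1`-Lipschitz map `j` from `K` and a map `ι` from the round
piece which does not increase the lengths of the great circle segments outside `B`; the maps agree on
the boundary circle of `B`.

The underlying theorem, `ball_minimal`, is that spherical balls of radius `R` are minimal fillings of
their boundary circles with the spherical distances.
-/

set_option autoImplicit false

namespace Pool.Agent.Results.MP_ecf18f_gt.RoundOutsideBall

open Real InnerProductGeometry Pool.Agent.H115R3.Filling Pool.Agent.Q183.CAP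

theorem result {K : Type} [MetricSpace K] (S : OrientedSurface K) {R : ℝ} (hR0 : 0 < R)
    (hR1 : R < π / 2) (hR : 3 * sin R ^ 2 ≤ 1) {c e₁ e₂ : E3} (h : Orthonormal ℝ ![c, e₁, e₂])
    (M : Type) [MetricSpace M] (n : E3) (hball : ∀ x : E3, ‖x‖ = 1 → angle x c ≤ R → 0 ≤ inner ℝ x n)
    (j : K → M) (ι : E3 → M) (hj : ∀ x y, dist (j x) (j y) ≤ dist x y)
    (hι : ∀ x ∈ Outside n c R, ∀ y ∈ Outside n c R, Free c R x y → dist (ι x) (ι y) ≤ angle x y)
    (hglue : ∀ s : ℝ, ι (circ R c e₁ e₂ s) = j (S.boundary (s : AddCircle (2 * π))))
    (hno : ∀ x y, ‖x‖ = 1 → ‖y‖ = 1 → inner ℝ x n = 0 → inner ℝ y n = 0 →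
      angle x y ≤ dist (ι x) (ι y)) :
    2 * π * (1 - cos R) ≤ S.area :=
  round_outside S hR0 hR1 hR h hball hj hι hglue hno

end Pool.Agent.Results.MP_ecf18f_gt.RoundOutsideBall
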